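import Mathlib

/-! # Weak convergence to the normal law from cosine and sine sums with signed weights -/

set_option autoImplicit false

namespace Pool.Agent.V8H61.IN

open Finset Filter Topology MeasureTheory ProbabilityTheory

theorem int_P {T : ℝ} [hT : Fact (0 < T)] (P : C(AddCircle T, ℂ)) :
    Integrable (fun y : ℝ => P (y : AddCircle T)) (gaussianReal 0 1) := by
  refine Integrable.of_bound (C := ‖P‖) ?_ (Eventually.of_forall fun y => P.norm_coe_le_norm _)
  exact (P.continuous.comp (AddCircle.continuous_mk' T)).aestronglyMeasurable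

theorem trig_lim {ι : Type*} (l : Filter ι) (A : ι → Finset ℕ) (W : ι → ℕ → ℝ) (Y : ι → ℕ → ℝ)
    (m : ℝ)
    (h1 : ∀ t : ℝ, Tendsto (fun i => ∑ d ∈ A i, W i d * Real.cos (t * Y i d)) l
      (𝓝 (m * Real.exp (-(t ^ 2 / 2)))))
    (h2 : ∀ t : ℝ, Tendsto (fun i => ∑ d ∈ A i, W i d * Real.sin (t * Y i d)) l (𝓝 0))
    {T : ℝ} [hT : Fact (0 < T)] (P : C(AddCircle T, ℂ))
    (hP : P ∈ Submodule.span ℂ (Set.range (@fourier T))) :
    Tendsto (fun i => ∑ d ∈ A i, (W i d : ℂ) * P (Y i d : AddCircle T)) l
      (𝓝 (m * ∫ y : ℝ, P (y : AddCircle T) ∂(gaussianReal 0 1))) := by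
  induction hP using Submodule.span_induction with
  | mem P hP =>
    obtain ⟨n, rfl⟩ := hP
    obtain ⟨t, ht⟩ : ∃ t : ℝ, t = 2 * Real.pi * n / T := ⟨_, rfl⟩
    have hval : ∀ y : ℝ, (fourier n : C(AddCircle T, ℂ)) (y : AddCircle T) =
        Complex.exp (t * y * Complex.I) := by
      intro y
      rw [fourier_coe_apply, ht]
      congr 1
      push_cast
      ring
    have hint : ∫ y : ℝ, (fourier n : C(AddCircle T, ℂ)) (y : AddCircle T) ∂(gaussianReal 0 1) =
        ((Real.exp (-(t ^ 2 / 2)) : ℝ) : ℂ) := by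
      simp only [hval]
      have h3 := charFun_gaussianReal (μ := 0) (v := 1) t
      rw [charFun_apply_real] at h3
      rw [h3]
      push_cast
      congr 1
      ring
    rw [hint]
    have hsum : ∀ i, ∑ d ∈ A i, (W i d : ℂ) * (fourier n : C(AddCircle T, ℂ)) (Y i d : AddCircle T) =
        ((∑ d ∈ A i, W i d * Real.cos (t * Y i d) : ℝ) : ℂ) +
          ((∑ d ∈ A i, W i d * Real.sin (t * Y i d) : ℝ) : ℂ) * Complex.I := by
      intro i
      rw [Complex.ofReal_sum, Complex.ofReal_sum, Finset.sum_mul, ← Finset.sum_add_distrib]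
      refine Finset.sum_congr rfl fun d _ => ?_
      rw [hval, Complex.exp_mul_I]
      push_cast
      ring
    simp only [hsum]
    have h3 := ((Complex.continuous_ofReal.tendsto _).comp (h1 t)).add
      (((Complex.continuous_ofReal.tendsto _).comp (h2 t)).mul_const Complex.I)
    simp only [Function.comp_def] at h3
    rw [Complex.ofReal_zero, zero_mul, add_zero, Complex.ofReal_mul] at h3
    exact h3
  | zero =>
    simp only [ContinuousMap.zero_apply, mul_zero, Finset.sum_const_zero, integral_zero]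
    exact tendsto_const_nhds
  | add P Q _ _ hP hQ =>
    have h3 := hP.add hQ
    have h4 : ∫ y : ℝ, (P + Q) (y : AddCircle T) ∂(gaussianReal 0 1) =
        ∫ y : ℝ, P (y : AddCircle T) ∂(gaussianReal 0 1) +
          ∫ y : ℝ, Q (y : AddCircle T) ∂(gaussianReal 0 1) := by
      simp only [ContinuousMap.add_apply]
      exact integral_add (int_P P) (int_P Q)
    rw [h4, mul_add]
    refine h3.congr fun i => ?_
    rw [← Finset.sum_add_distrib]
    refine Finset.sum_congr rfl fun d _ => ?_
    rw [ContinuousMap.add_apply]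
    ring
  | smul c P _ hP =>
    have h3 := hP.const_mul c
    have h4 : ∫ y : ℝ, (c • P) (y : AddCircle T) ∂(gaussianReal 0 1) =
        c * ∫ y : ℝ, P (y : AddCircle T) ∂(gaussianReal 0 1) := by
      simp only [ContinuousMap.smul_apply, smul_eq_mul]
      exact integral_const_mul _ _
    rw [h4, mul_left_comm]
    refine h3.congr fun i => ?_
    rw [Finset.mul_sum]
    refine Finset.sum_congr rfl fun d _ => ?_
    rw [ContinuousMap.smul_apply, smul_eq_mul]
    ring

theorem test_fun {ι : Type*} (l : Filter ι) (A : ι → Finset ℕ) (W : ι → ℕ → ℝ)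
    (Y : ι → ℕ → ℝ) (m C : ℝ)
    (h1 : ∀ t : ℝ, Tendsto (fun i => ∑ d ∈ A i, W i d * Real.cos (t * Y i d)) l
      (𝓝 (m * Real.exp (-(t ^ 2 / 2)))))
    (h2 : ∀ t : ℝ, Tendsto (fun i => ∑ d ∈ A i, W i d * Real.sin (t * Y i d)) l (𝓝 0))
    (h3 : ∀ᶠ i in l, ∑ d ∈ A i, |W i d| ≤ C)
    (h4 : ∀ ε : ℝ, 0 < ε → ∃ R : ℝ, ∀ᶠ i in l,
      ∑ d ∈ (A i).filter (fun d => R < |Y i d|), |W i d| ≤ ε)
    (g : ℝ → ℝ) (hg : Continuous g) (hgc : HasCompactSupport g) :
    Tendsto (fun i => ∑ d ∈ A i, W i d * g (Y i d)) l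
      (𝓝 (m * ∫ y, g y ∂(gaussianReal 0 1))) := by
  -- bound for `g`
  obtain ⟨M, hM⟩ : ∃ M, ∀ y, |g y| ≤ M := by
    obtain ⟨M, hM⟩ := hg.bounded_above_of_compact_support hgc
    exact ⟨M, fun y => hM y⟩
  have hM0 : 0 ≤ M := (abs_nonneg _).trans (hM 0)
  -- the support
  obtain ⟨R1, hR1⟩ : ∃ R1 : ℝ, ∀ y, R1 < |y| → g y = 0 := by
    obtain ⟨R, hR⟩ := hgc.isCompact.isBounded.subset_closedBall (0 : ℝ)
    refine ⟨R, fun y hy => ?_⟩
    by_contra h
    have h5 : y ∈ tsupport g := subset_tsupport g h
    have h6 := hR h5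
    rw [Metric.mem_closedBall, dist_zero_right, Real.norm_eq_abs] at h6
    exact absurd hy (not_lt.2 h6)
  have key : ∀ ε : ℝ, 0 < ε → ε ≤ 1 → ∀ᶠ i in l,
      |∑ d ∈ A i, W i d * g (Y i d) - m * ∫ y, g y ∂(gaussianReal 0 1)| ≤
        ε * (|C| + (2 * M + 1) + 1 + |m| * (2 * M + 2)) := by
    intro ε hε hε1
    obtain ⟨R2, hR2⟩ := h4 ε hε
    -- tail of the normal law
    obtain ⟨R3, hR3⟩ : ∃ R3 : ℝ, (gaussianReal 0 1).real {y : ℝ | R3 < |y|} ≤ ε := by
      obtain ⟨K, -, hK, hKm⟩ := (MeasurableSet.univ (α := ℝ)).exists_isCompact_sdiff_lt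
        (μ := gaussianReal 0 1) (measure_ne_top _ _) (ε := ENNReal.ofReal ε)
        (by rw [Ne, ENNReal.ofReal_eq_zero, not_le]; exact hε)
      obtain ⟨R, hR⟩ := hK.isBounded.subset_closedBall (0 : ℝ)
      refine ⟨R, ?_⟩
      have h5 : {y : ℝ | R < |y|} ⊆ Set.univ \ K := by
        intro y hy
        refine ⟨trivial, fun h6 => ?_⟩
        have h7 := hR h6
        rw [Metric.mem_closedBall, dist_zero_right, Real.norm_eq_abs] at h7
        exact absurd (show R < |y| from hy) (not_lt.2 h7)
      have h6 := (measure_mono (μ := gaussianReal 0 1) h5).trans hKm.le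
      rw [Measure.real]
      exact ENNReal.toReal_le_of_le_ofReal hε.le h6
    obtain ⟨R, hRdef⟩ : ∃ R, R = max 1 (max R1 (max R2 R3)) := ⟨_, rfl⟩
    have hR1' : R1 ≤ R := by rw [hRdef]; exact (le_max_left _ _).trans (le_max_right _ _)
    have hR2' : R2 ≤ R := by
      rw [hRdef]; exact (le_max_left _ _).trans ((le_max_right _ _).trans (le_max_right _ _))
    have hR3' : R3 ≤ R := by
      rw [hRdef]; exact (le_max_right _ _).trans ((le_max_right _ _).trans (le_max_right _ _))
    have hR0 : 1 ≤ R := by rw [hRdef]; exact le_max_left _ _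
    obtain ⟨T, hTdef⟩ : ∃ T, T = 2 * (R + 1) := ⟨_, rfl⟩
    have hT0 : 0 < T := by rw [hTdef]; linarith
    have hT : Fact (0 < T) := ⟨hT0⟩
    -- the periodic extension
    let gc : ℝ → ℂ := fun y => (g y : ℂ)
    have hgcc : Continuous gc := Complex.continuous_ofReal.comp hg
    have e1 : gc (-(R + 1)) = gc (-(R + 1) + T) := by
      have e2 : g (-(R + 1)) = 0 := hR1 _ (by rw [abs_neg, abs_of_pos (by linarith)]; linarith)
      have e3 : g (-(R + 1) + T) = 0 := hR1 _ (by
        rw [hTdef, abs_of_pos (by linarith)]; linarith)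
      change ((g (-(R + 1)) : ℝ) : ℂ) = ((g (-(R + 1) + T) : ℝ) : ℂ)
      rw [e2, e3]
    let G : C(AddCircle T, ℂ) := ⟨AddCircle.liftIco T (-(R + 1)) gc,
      AddCircle.liftIco_continuous e1 hgcc.continuousOn⟩
    have hG : ∀ y : ℝ, |y| ≤ R → G (y : AddCircle T) = (g y : ℂ) := by
      intro y hy
      have h5 := abs_le.1 hy
      exact AddCircle.liftIco_coe_apply (p := T) (a := -(R + 1)) (f := gc)
        ⟨by linarith, by rw [hTdef]; linarith⟩
    -- the trigonometric polynomial
    obtain ⟨P, hPspan, hPG⟩ : ∃ P ∈ Submodule.span ℂ (Set.range (@fourier T)), ‖G - P‖ ≤ ε := by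
      have h5 : G ∈ (Submodule.span ℂ (Set.range (@fourier T))).topologicalClosure := by
        rw [span_fourier_closure_eq_top]; trivial
      have h6 : G ∈ closure ((Submodule.span ℂ (Set.range (@fourier T)) :
        Submodule ℂ C(AddCircle T, ℂ)) : Set C(AddCircle T, ℂ)) := h5
      obtain ⟨P, hP, h7⟩ := Metric.mem_closure_iff.1 h6 ε hε
      refine ⟨P, hP, ?_⟩
      rw [dist_eq_norm] at h7
      exact h7.le
    have hGb : ∀ z : AddCircle T, ‖G z‖ ≤ M := by
      intro z
      obtain ⟨y, hy, rfl⟩ := AddCircle.coe_image_Ico_eq (p := T) (a := -(R + 1)) ▸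
        (Set.mem_univ z)
      have h5 : G (y : AddCircle T) = gc y :=
        AddCircle.liftIco_coe_apply (p := T) (a := -(R + 1)) (f := gc) hy
      rw [h5]
      change ‖((g y : ℝ) : ℂ)‖ ≤ M
      rw [Complex.norm_real]
      exact hM y
    obtain ⟨p, hp⟩ : ∃ p : ℝ → ℝ, p = fun y : ℝ => (P (y : AddCircle T)).re := ⟨_, rfl⟩
    have hpt : ∀ z : AddCircle T, ‖G z - P z‖ ≤ ε := fun z =>
      ((G - P).norm_coe_le_norm z).trans hPG
    have hclose : ∀ y : ℝ, |y| ≤ R → |g y - p y| ≤ ε := by
      intro y hy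
      have h5 := hpt (y : AddCircle T)
      rw [hG y hy] at h5
      have h6 := (Complex.abs_re_le_norm ((g y : ℂ) - P (y : AddCircle T))).trans h5
      rw [Complex.sub_re, Complex.ofReal_re] at h6
      rw [hp]
      exact h6
    have hfar : ∀ y : ℝ, |g y - p y| ≤ 2 * M + 1 := by
      intro y
      have h5 : |p y| ≤ M + ε := by
        rw [hp]
        refine (Complex.abs_re_le_norm _).trans ?_
        have h6 : P (y : AddCircle T) = G (y : AddCircle T) -
            (G (y : AddCircle T) - P (y : AddCircle T)) := by ring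
        rw [h6]
        exact (norm_sub_le _ _).trans (add_le_add (hGb _) (hpt _))
      have h6 := abs_sub (g y) (p y)
      have h7 := hM y
      linarith
    have hbd : ∀ y : ℝ, |g y - p y| ≤ ε + (2 * M + 1) * (if R < |y| then 1 else 0) := by
      intro y
      split_ifs with h
      · have := hfar y
        linarith
      · have := hclose y (not_lt.1 h)
        linarith
    -- integrals
    have hpc : Continuous p := by
      rw [hp]
      exact Complex.continuous_re.comp (P.continuous.comp (AddCircle.continuous_mk' T))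
    have hpint : Integrable p (gaussianReal 0 1) := by
      rw [hp]
      exact (int_P P).re
    have hgint : Integrable g (gaussianReal 0 1) :=
      Integrable.of_bound hg.aestronglyMeasurable M (Eventually.of_forall hM)
    have hpI : ∫ y, p y ∂(gaussianReal 0 1) =
        (∫ y : ℝ, P (y : AddCircle T) ∂(gaussianReal 0 1)).re := by
      rw [hp]
      exact integral_re (int_P P)
    have hdI : |∫ y, g y ∂(gaussianReal 0 1) - ∫ y, p y ∂(gaussianReal 0 1)| ≤
        ε * (2 * M + 2) := by
      rw [← integral_sub hgint hpint]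
      have hms : MeasurableSet {y : ℝ | R < |y|} := measurableSet_lt measurable_const
        (continuous_abs.measurable)
      have h5 : Integrable (fun y : ℝ => ε + (2 * M + 1) * (if R < |y| then (1 : ℝ) else 0))
          (gaussianReal 0 1) := by
        refine (integrable_const _).add (Integrable.const_mul ?_ _)
        have : (fun y : ℝ => if R < |y| then (1 : ℝ) else 0) =
            {y : ℝ | R < |y|}.indicator (fun _ => 1) := by
          funext y
          simp [Set.indicator]
        rw [this]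
        exact (integrable_const _).indicator hms
      calc |∫ y, (g y - p y) ∂(gaussianReal 0 1)|
          ≤ ∫ y, |g y - p y| ∂(gaussianReal 0 1) := abs_integral_le_integral_abs
        _ ≤ ∫ y, (ε + (2 * M + 1) * (if R < |y| then (1 : ℝ) else 0)) ∂(gaussianReal 0 1) :=
            integral_mono (hgint.sub hpint).abs h5 hbd
        _ = ε + (2 * M + 1) * (gaussianReal 0 1).real {y : ℝ | R < |y|} := by
            have : (fun y : ℝ => if R < |y| then (1 : ℝ) else 0) =
                {y : ℝ | R < |y|}.indicator (fun _ => 1) := by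
              funext y
              simp [Set.indicator]
            rw [integral_add (integrable_const _), integral_const_mul, this,
              integral_indicator_const _ hms]
            · simp
            · refine Integrable.const_mul ?_ _
              rw [this]
              exact (integrable_const _).indicator hms
        _ ≤ ε + (2 * M + 1) * ε := by
            have h6 : (gaussianReal 0 1).real {y : ℝ | R < |y|} ≤ ε := by
              refine (measureReal_mono ?_).trans hR3
              intro y hy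
              exact lt_of_le_of_lt hR3' hy
            have h7 : 0 ≤ 2 * M + 1 := by linarith
            have := mul_le_mul_of_nonneg_left h6 h7
            linarith
        _ = ε * (2 * M + 2) := by ring
    -- the limit for `P`
    have hlim := trig_lim l A W Y m h1 h2 P hPspan
    have hlim2 : ∀ᶠ i in l, |∑ d ∈ A i, W i d * p (Y i d) - m * ∫ y, p y ∂(gaussianReal 0 1)| ≤
        ε := by
      have h5 := (Complex.continuous_re.tendsto _).comp hlim
      have h6 := (Metric.tendsto_nhds.1 h5) ε hε
      filter_upwards [h6] with i hi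
      rw [Real.dist_eq] at hi
      refine le_of_eq_of_le ?_ hi.le
      congr 1
      simp only [Function.comp_apply]
      rw [Complex.re_sum, Complex.re_ofReal_mul, hpI]
      congr 1
      refine Finset.sum_congr rfl fun d _ => ?_
      rw [Complex.re_ofReal_mul, hp]
    filter_upwards [hlim2, h3, hR2] with i hi1 hi2 hi3
    have hi3' : ∑ d ∈ (A i).filter (fun d => R < |Y i d|), |W i d| ≤ ε := by
      refine le_trans ?_ hi3
      refine Finset.sum_le_sum_of_subset_of_nonneg ?_ fun _ _ _ => abs_nonneg _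
      intro d hd
      rw [Finset.mem_filter] at hd ⊢
      exact ⟨hd.1, lt_of_le_of_lt hR2' hd.2⟩
    have hdS : |∑ d ∈ A i, W i d * g (Y i d) - ∑ d ∈ A i, W i d * p (Y i d)| ≤
        ε * (|C| + (2 * M + 1)) := by
      rw [← Finset.sum_sub_distrib]
      calc |∑ d ∈ A i, (W i d * g (Y i d) - W i d * p (Y i d))|
          ≤ ∑ d ∈ A i, |W i d * g (Y i d) - W i d * p (Y i d)| := Finset.abs_sum_le_sum_abs _ _
        _ ≤ ∑ d ∈ A i, (ε * |W i d| + (2 * M + 1) * (if R < |Y i d| then |W i d| else 0)) := by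
            refine Finset.sum_le_sum fun d _ => ?_
            rw [← mul_sub, abs_mul]
            have h5 := mul_le_mul_of_nonneg_left (hbd (Y i d)) (abs_nonneg (W i d))
            refine h5.trans (le_of_eq ?_)
            split_ifs <;> ring
        _ = ε * ∑ d ∈ A i, |W i d| +
            (2 * M + 1) * ∑ d ∈ (A i).filter (fun d => R < |Y i d|), |W i d| := by
            rw [Finset.sum_add_distrib, ← Finset.mul_sum, ← Finset.mul_sum, Finset.sum_filter]
        _ ≤ ε * |C| + (2 * M + 1) * ε := by
            have h5 := mul_le_mul_of_nonneg_left (hi2.trans (le_abs_self C)) hε.le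
            have h6 := mul_le_mul_of_nonneg_left hi3' (show 0 ≤ 2 * M + 1 by linarith)
            linarith
        _ = ε * (|C| + (2 * M + 1)) := by ring
    have hdm : |m * ∫ y, g y ∂(gaussianReal 0 1) - m * ∫ y, p y ∂(gaussianReal 0 1)| ≤
        |m| * (ε * (2 * M + 2)) := by
      rw [← mul_sub, abs_mul]
      exact mul_le_mul_of_nonneg_left hdI (abs_nonneg m)
    have h5 : ∑ d ∈ A i, W i d * g (Y i d) - m * ∫ y, g y ∂(gaussianReal 0 1) =
        (∑ d ∈ A i, W i d * g (Y i d) - ∑ d ∈ A i, W i d * p (Y i d)) +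
        (∑ d ∈ A i, W i d * p (Y i d) - m * ∫ y, p y ∂(gaussianReal 0 1)) -
        (m * ∫ y, g y ∂(gaussianReal 0 1) - m * ∫ y, p y ∂(gaussianReal 0 1)) := by ring
    rw [h5]
    refine (abs_sub _ _).trans ?_
    have h6 := abs_add_le (∑ d ∈ A i, W i d * g (Y i d) - ∑ d ∈ A i, W i d * p (Y i d))
      (∑ d ∈ A i, W i d * p (Y i d) - m * ∫ y, p y ∂(gaussianReal 0 1))
    linarith
  -- conclusion
  rw [Metric.tendsto_nhds]
  intro δ hδ
  obtain ⟨K, hK⟩ : ∃ K, K = |C| + (2 * M + 1) + 1 + |m| * (2 * M + 2) := ⟨_, rfl⟩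
  have hK0 : 0 < K := by
    have h5 := abs_nonneg C
    have h6 : 0 ≤ |m| * (2 * M + 2) := mul_nonneg (abs_nonneg m) (by linarith)
    rw [hK]; linarith
  have hε : 0 < min 1 (δ / (2 * K)) := lt_min one_pos (by positivity)
  filter_upwards [key _ hε (min_le_left _ _)] with i hi
  rw [Real.dist_eq]
  refine lt_of_le_of_lt hi ?_
  rw [← hK]
  have h5 : min 1 (δ / (2 * K)) * K ≤ δ / (2 * K) * K :=
    mul_le_mul_of_nonneg_right (min_le_right _ _) hK0.le
  have h6 : δ / (2 * K) * K = δ / 2 := by field_simp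
  linarith

end Pool.Agent.V8H61.IN
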